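import Pool.Agent.Helper76.TH.StC

/-!
# Project TH: module O1H (the plane functions of a symbol, odd exponents)

Model: Pool/Agent/Helper98/W5/M_O1.lean.
-/

set_option autoImplicit false

namespace Pool.Agent.Helper46.TH

open Pool.Agent.Helper76.TH Pool.Agent.Helper93.TLH
open Pool.Agent.Helper14.W5
open Pool.Agent.Helper14.CV (Homog EqC act Tl StFar)

private lemma five_pow_z (k : ℕ) : (5 : ZMod (5 ^ k)) ^ k = 0 := by
  have := ZMod.natCast_self (5 ^ k)
  push_cast at this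
  exact this

private lemma five_top {k : ℕ} (hk : 1 ≤ k) : (5 : ZMod (5 ^ k)) ^ (k - 1) * 5 = 0 := by
  rw [← pow_succ]
  have : k - 1 + 1 = k := by omega
  rw [this, five_pow_z]

private lemma unit15 (k : ℕ) (y : ZMod (5 ^ k)) : IsUnit (1 + 5 * y) := by
  have h : IsNilpotent (5 * y) := ⟨k, by rw [mul_pow, five_pow_z, zero_mul]⟩
  exact h.isUnit_one_add

private lemma unit_lin {k : ℕ} {a e t : ℤ} (h : a * e = 1 + 5 * t) (z : ZMod (5 ^ k)) :
    IsUnit ((a : ZMod (5 ^ k)) + 5 * z) := by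
  have h1 := unit15 k ((t : ZMod (5 ^ k)) + z * e)
  have e1 : (1 : ZMod (5 ^ k)) + 5 * ((t : ZMod (5 ^ k)) + z * e) =
      ((a : ZMod (5 ^ k)) + 5 * z) * e := by
    have h3 := congrArg (fun n : ℤ => (n : ZMod (5 ^ k))) h
    push_cast at h3
    linear_combination -h3
  rw [e1] at h1
  exact isUnit_of_mul_isUnit_left h1

private lemma two_inv (k : ℕ) : (2 : ZMod (5 ^ k)) * 2⁻¹ = 1 := by
  have h := unit_lin (k := k) (a := 2) (e := 3) (t := 1) (by norm_num) 0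
  rw [mul_zero, add_zero] at h
  have := ZMod.mul_inv_of_unit _ h
  push_cast at this
  exact this

/-! ### coordinates -/

private def Co {k : ℕ} (a b c d : ℤ) (p : Pt k) : Prop :=
  (b : ZMod (5 ^ k)) = p.1 * a ∧ (c : ZMod (5 ^ k)) = p.2 * d

private lemma co_ng {k : ℕ} {p : Pt k} {a b c d : ℤ} (h : Co a b c d p) :
    Co a (-b) (-c) d (ng p) := by
  obtain ⟨h2, h3⟩ := h
  refine ⟨?_, ?_⟩
  · push_cast
    rw [h2]
    simp only [ng]
    ring
  · push_cast
    rw [h3]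
    simp only [ng]
    ring

private lemma co_sw {k : ℕ} {p : Pt k} {a b c d : ℤ} (h : Co a b (2 * c) d p) :
    Co d c (2 * b) a (swH p) := by
  obtain ⟨h2, h3⟩ := h
  have i2 := two_inv k
  push_cast at h3
  refine ⟨?_, ?_⟩
  · simp only [swH]
    linear_combination (2⁻¹ : ZMod (5 ^ k)) * h3 - (c : ZMod (5 ^ k)) * i2
  · push_cast
    rw [h2]
    simp only [swH]
    ring

private lemma co_half {k : ℕ} {p : Pt k} {a b c d : ℤ} (h : Co (2 * a) (2 * b) (2 * c) (2 * d) p) :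
    Co a b c d p := by
  obtain ⟨h2, h3⟩ := h
  have i2 := two_inv k
  push_cast at h2 h3
  refine ⟨?_, ?_⟩
  · linear_combination (2⁻¹ : ZMod (5 ^ k)) * h2 - ((b : ZMod (5 ^ k)) - p.1 * a) * i2
  · linear_combination (2⁻¹ : ZMod (5 ^ k)) * h3 - ((c : ZMod (5 ^ k)) - p.2 * d) * i2

private lemma co_trp {k : ℕ} {p : Pt k} {A B C D a b c d e f t s : ℤ} (ha : a * e = 1 + 5 * t)
    (hd : d * f = 1 + 5 * s) (h : Co A B C D p) :
    Co (A * a + 5 * B * c) (A * b + B * d) (C * a + D * c) (5 * C * b + D * d)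
      (trp 0 a b c d p) := by
  obtain ⟨h2, h3⟩ := h
  have u1 : IsUnit ((a : ZMod (5 ^ k)) + 5 ^ (0 + 1) * c * p.1) := by
    have := unit_lin (k := k) ha ((c : ZMod (5 ^ k)) * p.1)
    have e : (a : ZMod (5 ^ k)) + 5 ^ (0 + 1) * c * p.1 = a + 5 * ((c : ZMod (5 ^ k)) * p.1) := by
      ring
    rw [e]
    exact this
  have u2 : IsUnit ((d : ZMod (5 ^ k)) + 5 ^ (0 + 1) * b * p.2) := by
    have := unit_lin (k := k) hd ((b : ZMod (5 ^ k)) * p.2)
    have e : (d : ZMod (5 ^ k)) + 5 ^ (0 + 1) * b * p.2 = d + 5 * ((b : ZMod (5 ^ k)) * p.2) := by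
      ring
    rw [e]
    exact this
  have i1 := ZMod.inv_mul_of_unit _ u1
  have i2 := ZMod.inv_mul_of_unit _ u2
  refine ⟨?_, ?_⟩
  · simp only [trp]
    push_cast
    rw [h2]
    linear_combination (-(A : ZMod (5 ^ k)) * (b + d * p.1)) * i1
  · simp only [trp]
    push_cast
    rw [h3]
    linear_combination (-(D : ZMod (5 ^ k)) * (c + a * p.2)) * i2

private lemma co_dR {k : ℕ} {p : Pt k} {a b c d : ℤ} (h : Co a b c d p) :
    Co a (-a - b) (-c) (5 * c + d) (dR 0 p) := by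
  have h1 := co_trp (a := 1) (b := -1) (c := 0) (d := 1) (e := 1) (f := 1) (t := 0) (s := 0)
    (by norm_num) (by norm_num) (co_ng h)
  have e1 : a * 1 + 5 * -b * 0 = a := by ring
  have e2 : a * -1 + -b * 1 = -a - b := by ring
  have e3 : -c * 1 + d * 0 = -c := by ring
  have e4 : 5 * -c * -1 + d * 1 = 5 * c + d := by ring
  rw [e1, e2, e3, e4] at h1
  exact h1

private lemma co_cO {k : ℕ} {p : Pt k} {a b c d : ℤ} (h : Co a b (2 * c) d p) :
    Co (2 * d + 10 * c) (-(d + 4 * c)) (2 * (a + 2 * b)) (-(4 * a + 10 * b)) (cOH p) := by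
  have h1 := co_trp (a := 2) (b := -1) (c := 2) (d := -4) (e := 3) (f := 1) (t := 1) (s := -1)
    (by norm_num) (by norm_num) (co_sw h)
  have e1 : d * 2 + 5 * c * 2 = 2 * d + 10 * c := by ring
  have e2 : d * -1 + c * -4 = -(d + 4 * c) := by ring
  have e3 : 2 * b * 2 + a * 2 = 2 * (a + 2 * b) := by ring
  have e4 : 5 * (2 * b) * -1 + a * -4 = -(4 * a + 10 * b) := by ring
  rw [e1, e2, e3, e4] at h1
  exact h1

private lemma co_R {k : ℕ} {p : Pt k} {a b c d : ℤ} (h : Co a b (2 * c) d p) :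
    Co (-(4 * a + 10 * b)) (a + 2 * b) (2 * (-(d + 4 * c))) (2 * d + 10 * c) (swH (cOH p)) :=
  co_sw (co_cO h)

private lemma co_R2 {k : ℕ} {p : Pt k} {a b c d : ℤ} (h : Co a b (2 * c) d p) :
    Co (3 * a + 10 * b) (-(a + 3 * b)) (2 * (d + 3 * c)) (-(3 * d + 10 * c))
      (swH (cOH (swH (cOH p)))) := by
  have h1 := co_R (co_R h)
  have e1 : -(4 * -(4 * a + 10 * b) + 10 * (a + 2 * b)) = 2 * (3 * a + 10 * b) := by ring
  have e2 : -(4 * a + 10 * b) + 2 * (a + 2 * b) = 2 * (-(a + 3 * b)) := by ring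
  have e3 : 2 * -(2 * d + 10 * c + 4 * -(d + 4 * c)) = 2 * (2 * (d + 3 * c)) := by ring
  have e4 : 2 * (2 * d + 10 * c) + 10 * -(d + 4 * c) = 2 * (-(3 * d + 10 * c)) := by ring
  rw [e1, e2, e3, e4] at h1
  exact co_half h1

private lemma co_R3 {k : ℕ} {p : Pt k} {a b c d : ℤ} (h : Co a b (2 * c) d p) :
    Co (-(2 * a + 10 * b)) (a + 4 * b) (2 * (-(d + 2 * c))) (4 * d + 10 * c)
      (swH (cOH (swH (cOH (swH (cOH p)))))) := by
  have h1 := co_R (co_R2 h)
  have e1 : -(4 * (3 * a + 10 * b) + 10 * -(a + 3 * b)) = -(2 * a + 10 * b) := by ring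
  have e2 : 3 * a + 10 * b + 2 * -(a + 3 * b) = a + 4 * b := by ring
  have e3 : 2 * -(-(3 * d + 10 * c) + 4 * (d + 3 * c)) = 2 * (-(d + 2 * c)) := by ring
  have e4 : 2 * -(3 * d + 10 * c) + 10 * (d + 3 * c) = 4 * d + 10 * c := by ring
  rw [e1, e2, e3, e4] at h1
  exact h1

/-! ### types -/

private lemma ht1 {a b c d : ℤ} (h : a * d - 10 * b * c = 1) : HTy a b (5 * (2 * c)) d :=
  Or.inl ⟨by linear_combination h, ⟨5 * c, by ring⟩⟩

private lemma ht2 {a b c d : ℤ} (h : 2 * a * d - 5 * b * c = 1) :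
    HTy (2 * a) b (5 * (2 * c)) (2 * d) :=
  Or.inr ⟨by linear_combination 2 * h, ⟨a, rfl⟩, ⟨5 * c, by ring⟩, ⟨d, rfl⟩⟩

private lemma nz {a b c d m : ℤ} (hm : m ≠ 0) (h : a * d - b * c = m) {u v : ℤ}
    (huv : u ≠ 0 ∨ v ≠ 0) : a * u + b * v ≠ 0 ∨ c * u + d * v ≠ 0 :=
  Pool.Agent.Helper14.CV.ne_zero_of_det (a := a) (b := b) (c := c) (d := d)
    (by rw [h]; exact hm) huv

private def Z (G : ℤ → ℤ → ℂ) (v1 v2 w1 w2 : ℤ) : Prop :=
  ∀ a b c d : ℤ, a * d - 10 * b * c = 1 →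
    G (a * v1 + b * v2) (10 * c * v1 + d * v2) = G (a * w1 + b * w2) (10 * c * w1 + d * w2)

private lemma Z.sy {G : ℤ → ℤ → ℂ} {v1 v2 w1 w2 : ℤ} (h : Z G v1 v2 w1 w2) : Z G w1 w2 v1 v2 :=
  fun a b c d hd => (h a b c d hd).symm

private lemma Z.tr {G : ℤ → ℤ → ℂ} {v1 v2 w1 w2 t1 t2 : ℤ} (h : Z G v1 v2 w1 w2)
    (h' : Z G w1 w2 t1 t2) : Z G v1 v2 t1 t2 :=
  fun a b c d hd => (h a b c d hd).trans (h' a b c d hd)

private lemma nn {a b c d : ℤ} (h : a * d - 10 * b * c = 1) (u v : ℤ) (huv : u ≠ 0 ∨ v ≠ 0) :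
    a * u + b * v ≠ 0 ∨ 10 * c * u + d * v ≠ 0 :=
  nz (a := a) (b := b) (c := 10 * c) (d := d) (m := 1) one_ne_zero (by linear_combination h) huv

private lemma mk {G : ℤ → ℤ → ℂ} (hom : Homog G) (v1 v2 w1 w2 n n' : ℤ) (hv : v1 ≠ 0 ∨ v2 ≠ 0)
    (hw' : w1 ≠ 0 ∨ w2 ≠ 0) (hn : n ≠ 0) (hn' : n' ≠ 0) (a b c d A B C D : ℤ)
    (h : a * d - 10 * b * c = 1)
    (e1 : n * (a * v1 + b * v2) = A) (e2 : n * (10 * c * v1 + d * v2) = B)
    (e3 : n' * (a * w1 + b * w2) = C) (e4 : n' * (10 * c * w1 + d * w2) = D) (e : G A B = G C D) :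
    G (a * v1 + b * v2) (10 * c * v1 + d * v2) = G (a * w1 + b * w2) (10 * c * w1 + d * w2) := by
  have k1 := hom n (a * v1 + b * v2) (10 * c * v1 + d * v2) hn (nn h v1 v2 hv)
  have k2 := hom n' (a * w1 + b * w2) (10 * c * w1 + d * w2) hn' (nn h w1 w2 hw')
  rw [e1, e2] at k1
  rw [e3, e4] at k2
  rw [← k1, ← k2, e]

private def Kf (G : ℤ → ℤ → ℂ) : Prop := ∀ a b c d : ℤ, HTy a b (5 * c) d → G a (5 * c) = G b d

private def Kl' (G : ℤ → ℤ → ℂ) : Prop := ∀ a b c d : ℤ, HTy a b (5 * c) d →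
  G a (5 * c) = G (a + b * 2) (5 * c + d * 2)

private lemma z10 {G : ℤ → ℤ → ℂ} (hom : Homog G) (keyf : Kf G) : Z G 1 0 0 1 := fun a b c d h =>
  mk hom 1 0 0 1 1 1 (by norm_num) (by norm_num) (by norm_num) (by norm_num) a b c d _ _ _ _ h
    (by ring) (by ring) (by ring) (by ring) (keyf a b (2 * c) d (ht1 h))

private lemma z11 {G : ℤ → ℤ → ℂ} (hom : Homog G) (keyf : Kf G) : Z G 1 0 1 1 := fun a b c d h =>
  mk hom 1 0 1 1 1 1 (by norm_num) (by norm_num) (by norm_num) (by norm_num) a b c d _ _ _ _ h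
    (by ring) (by ring) (by ring) (by ring)
    (keyf a (a + b) (2 * c) (10 * c + d) (ht1 (by linear_combination h)))

private lemma zm11 {G : ℤ → ℤ → ℂ} (hom : Homog G) (keyf : Kf G) : Z G 1 0 (-1) 1 := fun a b c d h =>
  mk hom 1 0 (-1) 1 1 1 (by norm_num) (by norm_num) (by norm_num) (by norm_num) a b c d _ _ _ _ h
    (by ring) (by ring) (by ring) (by ring)
    (keyf a (b - a) (2 * c) (d - 10 * c) (ht1 (by linear_combination h)))

private lemma z12 {G : ℤ → ℤ → ℂ} (hom : Homog G) (keyl : Kl' G) : Z G 1 0 1 2 := fun a b c d h =>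
  mk hom 1 0 1 2 1 1 (by norm_num) (by norm_num) (by norm_num) (by norm_num) a b c d _ _ _ _ h
    (by ring) (by ring) (by ring) (by ring) (keyl a b (2 * c) d (ht1 h))

private lemma zm12 {G : ℤ → ℤ → ℂ} (hom : Homog G) (keyl : Kl' G) : Z G 1 0 (-1) 2 := fun a b c d h =>
  mk hom 1 0 (-1) 2 1 1 (by norm_num) (by norm_num) (by norm_num) (by norm_num) a b c d _ _ _ _ h
    (by ring) (by ring) (by ring) (by ring)
    (keyl a (b - a) (2 * c) (d - 10 * c) (ht1 (by linear_combination h)))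

private lemma z2512 {G : ℤ → ℤ → ℂ} (hom : Homog G) (keyf : Kf G) : Z G 2 5 1 2 := fun a b c d h =>
  mk hom 2 5 1 2 2 (-1) (by norm_num) (by norm_num) (by norm_num) (by norm_num) a b c d _ _ _ _ h
    (by ring) (by ring) (by ring) (by ring)
    (keyf (4 * a + 10 * b) (-(a + 2 * b)) (8 * c + 2 * d) (-(10 * c + 2 * d))
      (Or.inr ⟨by linear_combination 2 * h, ⟨2 * a + 5 * b, by ring⟩,
        ⟨5 * (4 * c + d), by ring⟩, ⟨-(5 * c + d), by ring⟩⟩))

private lemma z2513 {G : ℤ → ℤ → ℂ} (hom : Homog G) (keyl : Kl' G) : Z G 2 5 1 3 := fun a b c d h =>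
  mk hom 2 5 1 3 2 2 (by norm_num) (by norm_num) (by norm_num) (by norm_num) a b c d _ _ _ _ h
    (by ring) (by ring) (by ring) (by ring)
    (keyl (4 * a + 10 * b) (-(a + 2 * b)) (8 * c + 2 * d) (-(10 * c + 2 * d))
      (Or.inr ⟨by linear_combination 2 * h, ⟨2 * a + 5 * b, by ring⟩,
        ⟨5 * (4 * c + d), by ring⟩, ⟨-(5 * c + d), by ring⟩⟩))

private lemma z1514 {G : ℤ → ℤ → ℂ} (hom : Homog G) (keyf : Kf G) : Z G 1 5 1 4 := fun a b c d h =>
  mk hom 1 5 1 4 2 (-1) (by norm_num) (by norm_num) (by norm_num) (by norm_num) a b c d _ _ _ _ h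
    (by ring) (by ring) (by ring) (by ring)
    (keyf (2 * a + 10 * b) (-(a + 4 * b)) (4 * c + 2 * d) (-(10 * c + 4 * d))
      (Or.inr ⟨by linear_combination 2 * h, ⟨a + 5 * b, by ring⟩,
        ⟨5 * (2 * c + d), by ring⟩, ⟨-(5 * c + 2 * d), by ring⟩⟩))

private lemma zm1514 {G : ℤ → ℤ → ℂ} (hom : Homog G) (keyf : Kf G) : Z G (-1) 5 (-1) 4 := fun a b c d h =>
  mk hom (-1) 5 (-1) 4 2 1 (by norm_num) (by norm_num) (by norm_num) (by norm_num) a b c d _ _ _ _ h
    (by ring) (by ring) (by ring) (by ring)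
    (keyf (-2 * a + 10 * b) (-a + 4 * b) (-4 * c + 2 * d) (-10 * c + 4 * d)
      (Or.inr ⟨by linear_combination 2 * h, ⟨-a + 5 * b, by ring⟩,
        ⟨5 * (-2 * c + d), by ring⟩, ⟨-5 * c + 2 * d, by ring⟩⟩))

private lemma zm2512 {G : ℤ → ℤ → ℂ} (hom : Homog G) (keyf : Kf G) : Z G (-2) 5 (-1) 2 := fun a b c d h =>
  mk hom (-2) 5 (-1) 2 2 1 (by norm_num) (by norm_num) (by norm_num) (by norm_num) a b c d _ _ _ _ h
    (by ring) (by ring) (by ring) (by ring)
    (keyf (-4 * a + 10 * b) (-a + 2 * b) (-8 * c + 2 * d) (-10 * c + 2 * d)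
      (Or.inr ⟨by linear_combination 2 * h, ⟨-2 * a + 5 * b, by ring⟩,
        ⟨5 * (-4 * c + d), by ring⟩, ⟨-5 * c + d, by ring⟩⟩))

private lemma zm2513 {G : ℤ → ℤ → ℂ} (hom : Homog G) (keyl : Kl' G) : Z G (-2) 5 (-1) 3 := fun a b c d h =>
  mk hom (-2) 5 (-1) 3 (-2) 2 (by norm_num) (by norm_num) (by norm_num) (by norm_num) a b c d _ _ _ _ h
    (by ring) (by ring) (by ring) (by ring)
    (keyl (4 * a - 10 * b) (-3 * a + 8 * b) (8 * c - 2 * d) (-30 * c + 8 * d)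
      (Or.inr ⟨by linear_combination 2 * h, ⟨2 * a - 5 * b, by ring⟩,
        ⟨5 * (4 * c - d), by ring⟩, ⟨-15 * c + 4 * d, by ring⟩⟩))

private lemma z3512 {G : ℤ → ℤ → ℂ} (hom : Homog G) (keyf : Kf G) : Z G 3 5 1 2 := fun a b c d h =>
  mk hom 3 5 1 2 2 1 (by norm_num) (by norm_num) (by norm_num) (by norm_num) a b c d _ _ _ _ h
    (by ring) (by ring) (by ring) (by ring)
    (keyf (6 * a + 10 * b) (a + 2 * b) (12 * c + 2 * d) (10 * c + 2 * d)
      (Or.inr ⟨by linear_combination 2 * h, ⟨3 * a + 5 * b, by ring⟩,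
        ⟨5 * (6 * c + d), by ring⟩, ⟨5 * c + d, by ring⟩⟩))

private lemma z0115 {G : ℤ → ℤ → ℂ} (hom : Homog G) (hw : ∀ p q p' q' : ℤ, (p ≠ 0 ∨ q ≠ 0) → (p' ≠ 0 ∨ q' ≠ 0) →
    G q (10 * p) - G q' (10 * p') = G p' q' - G p q) (keyl : Kl' G) : Z G 0 1 1 5 := by
  intro a b c d h
  have k1 := keyl d c (2 * b) a (ht1 (by linear_combination h))
  have k2 := hw (a * 0 + b * 1) (10 * c * 0 + d * 1) (a * 1 + b * 5) (10 * c * 1 + d * 5)
    (nn h 0 1 (by norm_num)) (nn h 1 5 (by norm_num))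
  have e1 : G (10 * c * 0 + d * 1) (10 * (a * 0 + b * 1)) = G d (5 * (2 * b)) := by
    congr 1 <;> ring
  have n' : d + c * 2 ≠ 0 ∨ 5 * (2 * b) + a * 2 ≠ 0 := by
    have := nz (a := d) (b := c) (c := 10 * b) (d := a) (m := 1) one_ne_zero
      (by linear_combination h) (u := 1) (v := 2) (by norm_num)
    rcases this with h | h
    · left; intro h'; apply h; linear_combination h'
    · right; intro h'; apply h; linear_combination h'
  have e2 : G (10 * c * 1 + d * 5) (10 * (a * 1 + b * 5)) =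
      G (d + c * 2) (5 * (2 * b) + a * 2) := by
    rw [← hom 5 (d + c * 2) (5 * (2 * b) + a * 2) (by norm_num) n']
    congr 1 <;> ring
  rw [e1, e2, k1, sub_self] at k2
  exact (sub_eq_zero.1 k2.symm).symm

private lemma z01m15 {G : ℤ → ℤ → ℂ} (hom : Homog G) (hw : ∀ p q p' q' : ℤ, (p ≠ 0 ∨ q ≠ 0) → (p' ≠ 0 ∨ q' ≠ 0) →
    G q (10 * p) - G q' (10 * p') = G p' q' - G p q) (keyl : Kl' G) : Z G 0 1 (-1) 5 := by
  intro a b c d h
  have k1 := keyl d (c - d) (2 * b) (a - 10 * b) (ht1 (by linear_combination h))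
  have k2 := hw (a * 0 + b * 1) (10 * c * 0 + d * 1) (a * (-1) + b * 5) (10 * c * (-1) + d * 5)
    (nn h 0 1 (by norm_num)) (nn h (-1) 5 (by norm_num))
  have e1 : G (10 * c * 0 + d * 1) (10 * (a * 0 + b * 1)) = G d (5 * (2 * b)) := by
    congr 1 <;> ring
  have n' : d + (c - d) * 2 ≠ 0 ∨ 5 * (2 * b) + (a - 10 * b) * 2 ≠ 0 := by
    have := nz (a := d) (b := c) (c := 10 * b) (d := a) (m := 1) one_ne_zero
      (by linear_combination h) (u := -1) (v := 2) (by norm_num)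
    rcases this with h | h
    · left; intro h'; apply h; linear_combination h'
    · right; intro h'; apply h; linear_combination h'
  have e2 : G (10 * c * (-1) + d * 5) (10 * (a * (-1) + b * 5)) =
      G (d + (c - d) * 2) (5 * (2 * b) + (a - 10 * b) * 2) := by
    rw [← hom (-5) (d + (c - d) * 2) (5 * (2 * b) + (a - 10 * b) * 2) (by norm_num) n']
    congr 1 <;> ring
  rw [e1, e2, k1, sub_self] at k2
  exact (sub_eq_zero.1 k2.symm).symm

private lemma mainl {G : ℤ → ℤ → ℂ} (r1 r2 r3 r4 : ℤ) (hr : r1 * r4 - r2 * r3 = 1)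
    (hZ : Z G r1 r3 r2 r4) {a b c d : ℤ} (h : a * d - b * c = 1)
    (hdv : (10 : ℤ) ∣ c * r4 - d * r3) : G a c = G b d := by
  obtain ⟨e, he'⟩ := hdv
  have k := hZ (a * r4 - b * r3) (b * r1 - a * r2) e (d * r1 - c * r2)
    (by linear_combination (r1 * r4 - r2 * r3) * h + hr + (b * r1 - a * r2) * he')
  have e1 : (a * r4 - b * r3) * r1 + (b * r1 - a * r2) * r3 = a := by
    linear_combination a * hr
  have e2 : 10 * e * r1 + (d * r1 - c * r2) * r3 = c := by
    linear_combination c * hr - r1 * he'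
  have e3 : (a * r4 - b * r3) * r2 + (b * r1 - a * r2) * r4 = b := by
    linear_combination b * hr
  have e4 : 10 * e * r2 + (d * r1 - c * r2) * r4 = d := by
    linear_combination d * hr - r2 * he'
  rw [e1, e2, e3, e4] at k
  exact k

private lemma Z.ng {G : ℤ → ℤ → ℂ} (hom : Homog G) {v1 v2 : ℤ} (hv : v1 ≠ 0 ∨ v2 ≠ 0)
    (hZ : Z G 0 1 v1 v2) : Z G 0 1 (-v1) (-v2) := by
  intro a b c d h
  rw [hZ a b c d h, ← hom (-1) _ _ (by norm_num) (nn h v1 v2 hv)]
  congr 1 <;> ring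

private lemma cases18 (c d : ℤ) (h : (2 : ℤ) ∣ c ∨ (2 : ℤ) ∣ d ∨ (2 : ℤ) ∣ c + d) :
    ((2 : ℤ) ∣ c ∨ (2 : ℤ) ∣ d ∨ (2 : ℤ) ∣ c + d) ∧ ((5 : ℤ) ∣ c ∨ (5 : ℤ) ∣ d ∨ (5 : ℤ) ∣ c + d ∨
      (5 : ℤ) ∣ c - d ∨ (5 : ℤ) ∣ c - 2 * d ∨ (5 : ℤ) ∣ 2 * c - d) := by
  refine ⟨h, ?_⟩
  have h5 : c % 5 = 0 ∨ c % 5 = 1 ∨ c % 5 = 2 ∨ c % 5 = 3 ∨ c % 5 = 4 := by omega
  have h6 : d % 5 = 0 ∨ d % 5 = 1 ∨ d % 5 = 2 ∨ d % 5 = 3 ∨ d % 5 = 4 := by omega
  rcases h5 with h5 | h5 | h5 | h5 | h5 <;> rcases h6 with h6 | h6 | h6 | h6 | h6 <;> omega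

private lemma fin18 {G : ℤ → ℤ → ℂ} (hom : Homog G) (z10 : Z G 1 0 0 1) (z3512 : Z G 3 5 1 2)
    (z2512 : Z G 2 5 1 2) (y10 : Z G 0 1 1 0) (y11 : Z G 0 1 1 1) (ym11 : Z G 0 1 (-1) 1)
    (y12 : Z G 0 1 1 2) (ym12 : Z G 0 1 (-1) 2) (y13 : Z G 0 1 1 3) (ym13 : Z G 0 1 (-1) 3)
    (y14 : Z G 0 1 1 4) (ym14 : Z G 0 1 (-1) 4) (y15 : Z G 0 1 1 5) (ym15 : Z G 0 1 (-1) 5)
    (a b c d : ℤ) (h : a * d - b * c = 1) : G a c = G b d := by
  obtain ⟨h2c, h5c⟩ := cases18 c d (by omega)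
  rcases h5c with hc | hc | hc | hc | hc | hc <;> rcases h2c with hd | hd | hd
  · exact mainl 1 0 0 1 (by norm_num) z10 h (by clear h; omega)
  · exact mainl 3 1 5 2 (by norm_num) z3512 h (by clear h; omega)
  · exact mainl 1 0 5 1 (by norm_num) y15.sy h (by clear h; omega)
  · exact mainl 1 2 2 5 (by norm_num) z2512.sy h (by clear h; omega)
  · exact mainl 0 (-1) 1 0 (by norm_num) (Z.ng hom (by norm_num) y10) h (by clear h; omega)
  · exact mainl 0 (-1) 1 5 (by norm_num) ym15 h (by clear h; omega)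
  · exact mainl 1 0 4 1 (by norm_num) y14.sy h (by clear h; omega)
  · exact mainl 0 (-1) 1 4 (by norm_num) ym14 h (by clear h; omega)
  · exact mainl 0 (-1) 1 (-1) (by norm_num) (Z.ng hom (by norm_num) y11) h (by clear h; omega)
  · exact mainl 1 0 (-4) 1 (by norm_num) (Z.ng hom (by norm_num) ym14).sy h (by clear h; omega)
  · exact mainl 0 (-1) 1 (-4) (by norm_num) (Z.ng hom (by norm_num) y14) h (by clear h; omega)
  · exact mainl 0 (-1) 1 1 (by norm_num) ym11 h (by clear h; omega)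
  · exact mainl 1 0 2 1 (by norm_num) y12.sy h (by clear h; omega)
  · exact mainl 0 (-1) 1 (-2) (by norm_num) (Z.ng hom (by norm_num) y12) h (by clear h; omega)
  · exact mainl 0 (-1) 1 3 (by norm_num) ym13 h (by clear h; omega)
  · exact mainl 1 0 (-2) 1 (by norm_num) (Z.ng hom (by norm_num) ym12).sy h (by clear h; omega)
  · exact mainl 0 (-1) 1 2 (by norm_num) ym12 h (by clear h; omega)
  · exact mainl 0 (-1) 1 (-3) (by norm_num) (Z.ng hom (by norm_num) y13) h (by clear h; omega)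

/-- O1H. -/
theorem hO1H : StHO1 := by
  intro he ha _ht hfar k G hk hG
  obtain ⟨hS, hP1, hP2, hW, hst⟩ := hG
  have hom := hS.1
  have neg : ∀ p q : ℤ, (p ≠ 0 ∨ q ≠ 0) → G (-p) (-q) = G p q := by
    intro p q hpq
    have := hom (-1) p q (by norm_num) hpq
    rw [← this]
    congr 1 <;> ring
  -- values at all nonzero paths
  have val : ∀ (u1 u2 v1 v2 : ℤ), (u1 ≠ 0 ∨ u2 ≠ 0) → (v1 ≠ 0 ∨ v2 ≠ 0) →
      ∀ (x y : ZMod (5 ^ k)) (a b c d : ℤ), HTy a b (5 * c) d → Co a b c d ((x, y) : Pt k) →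
      edgeH 0 u1 u2 v1 v2 G x y = G (a * u1 + b * u2) (5 * c * u1 + d * u2) -
        G (a * v1 + b * v2) (5 * c * v1 + d * v2) := by
    intro u1 u2 v1 v2 hu hv x y a b c d h h'
    have h0 : PlH 0 a b c d x y := ⟨by rw [pow_zero, one_mul]; exact h, h'.1, h'.2⟩
    have := he ℂ inferInstance 0 k k G hS u1 u2 v1 v2 hu hv x y a b c d h0
    simpa using this
  have vf : ∀ (p : Pt k) (a b c d : ℤ), HTy a b (5 * c) d → Co a b c d p →
      edgeH 0 1 0 0 1 G p.1 p.2 = G a (5 * c) - G b d := by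
    intro p a b c d h h'
    have := val 1 0 0 1 (Or.inl one_ne_zero) (Or.inr one_ne_zero) _ _ a b c d h h'
    simpa using this
  have vl : ∀ (p : Pt k) (a b c d : ℤ), HTy a b (5 * c) d → Co a b c d p →
      edgeH 0 1 0 1 2 G p.1 p.2 = G a (5 * c) - G (a + b * 2) (5 * c + d * 2) := by
    intro p a b c d h h'
    have := val 1 0 1 2 (Or.inl one_ne_zero) (Or.inl one_ne_zero) _ _ a b c d h h'
    simpa using this
  -- the standard matrix
  have std : ∀ x y : ZMod (5 ^ k), ∃ X Y D : ℤ, D = 1 + 10 * X * Y ∧ (X : ZMod (5 ^ k)) = x ∧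
      ((2 * Y : ℤ) : ZMod (5 ^ k)) = y * D := by
    intro x y
    obtain ⟨h1, h2, h3⟩ := ha 0 k k x y
    have hY : (2 : ℤ) ∣ rYH 0 x y := by
      rcases h1 with ⟨_, h⟩ | ⟨h, _⟩
      · omega
      · exfalso
        have : (1 : ℤ) * (1 + 5 ^ (0 + 1) * (x.val : ℤ) * rYH 0 x y) -
            5 ^ 0 * (x.val : ℤ) * (5 * rYH 0 x y) = 1 := by ring
        rw [this] at h
        norm_num at h
    obtain ⟨Y, hY⟩ := hY
    refine ⟨(x.val : ℤ), Y, 1 + 10 * (x.val : ℤ) * Y, rfl, ?_, ?_⟩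
    · rw [h2]
      push_cast
      ring
    · rw [← hY, h3]
      congr 2
      rw [hY]
      ring
  have exP : ∀ p : Pt k, ∃ a b c d : ℤ, a * d - 10 * b * c = 1 ∧ Co a b (2 * c) d p := by
    intro p
    obtain ⟨X, Y, D, hD, hx, hy⟩ := std p.1 p.2
    exact ⟨1, X, Y, D, by rw [hD]; ring, by rw [hx]; simp, hy⟩
  -- sums over translates
  have anti : ∀ (u1 u2 v1 v2 : ℤ), (u1 ≠ 0 ∨ u2 ≠ 0) → (v1 ≠ 0 ∨ v2 ≠ 0) →
      (fun p : Pt k => edgeH 0 u1 u2 v1 v2 G p.1 p.2) ∈ anti5 k := by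
    intro u1 u2 v1 v2 hu hv p
    obtain ⟨x, y⟩ := p
    obtain ⟨X, Y, D, hD, hx, hy⟩ := std x y
    have hz := five_top hk
    have hz' := five_pow_z k
    have h5 : (5 : ℤ) ^ k = 5 ^ (k - 1) * 5 := by
      rw [← pow_succ]
      congr 1
      omega
    have hdet : 1 * D - X * (10 * Y) = 1 := by rw [hD]; ring
    -- the images of the vectors
    have hne : ∀ w1 w2 : ℤ, (w1 ≠ 0 ∨ w2 ≠ 0) →
        (1 * w1 + X * w2 ≠ 0 ∨ 10 * Y * w1 + D * w2 ≠ 0) := by
      intro w1 w2 hw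
      exact nz (a := 1) (b := X) (c := 10 * Y) (d := D) one_ne_zero hdet hw
    push_cast at hy
    constructor
    · have e := hP1.diff (hne u1 u2 hu) (hne v1 v2 hv)
      simp only [Finset.sum_apply, act, Pi.zero_apply, sub_self] at e
      rw [← Finset.sum_sub_distrib] at e
      refine (Finset.sum_congr rfl fun i _ => ?_).trans e
      show edgeH 0 u1 u2 v1 v2 G (x + (i : ZMod (5 ^ k)) * 5 ^ (k - 1)) y = _
      have ht := ht1 (a := 1 + i * 5 ^ (k - 1) * (10 * Y)) (b := X + i * 5 ^ (k - 1) * D)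
        (c := Y) (d := D) (by linear_combination hdet)
      have hc : Co (1 + i * 5 ^ (k - 1) * (10 * Y)) (X + i * 5 ^ (k - 1) * D) (2 * Y) D
          ((x + (i : ZMod (5 ^ k)) * 5 ^ (k - 1), y) : Pt k) := by
        refine ⟨?_, ?_⟩
        · rw [hD]
          push_cast
          rw [hx]
          linear_combination (2 * (i : ZMod (5 ^ k)) * x * Y -
            2 * (x + (i : ZMod (5 ^ k)) * 5 ^ (k - 1)) * i * Y) * hz
        · push_cast
          exact hy
      rw [val u1 u2 v1 v2 hu hv _ _ _ _ _ _ ht hc]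
      congr 2 <;> ring
    · have e := hP2.diff (hne u1 u2 hu) (hne v1 v2 hv)
      simp only [Finset.sum_apply, act, Pi.zero_apply, sub_self] at e
      rw [← Finset.sum_sub_distrib] at e
      have e2 : ∑ i ∈ Finset.range 5, edgeH 0 u1 u2 v1 v2 G x
          (y + ((2 * i : ℕ) : ZMod (5 ^ k)) * 5 ^ (k - 1)) = 0 := by
        refine (Finset.sum_congr rfl fun i _ => ?_).trans e
        have ht := ht1 (a := 1) (b := X) (c := Y + i * 5 ^ (k - 1)) (d := D + 2 * i * 5 ^ k * X)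
          (by rw [h5]; linear_combination hdet)
        have hc : Co 1 X (2 * (Y + i * 5 ^ (k - 1))) (D + 2 * i * 5 ^ k * X)
            ((x, y + ((2 * i : ℕ) : ZMod (5 ^ k)) * 5 ^ (k - 1)) : Pt k) := by
          refine ⟨?_, ?_⟩
          · rw [hx]
            simp
          · have hD' : (D : ZMod (5 ^ k)) = 1 + 10 * X * Y := by
              rw [hD]
              push_cast
              ring
            push_cast
            linear_combination hy + (-(2 : ZMod (5 ^ k)) * i * 5 ^ (k - 1)) * hD' -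
              (4 * (i : ZMod (5 ^ k)) * X * Y) * hz -
              ((y + 2 * (i : ZMod (5 ^ k)) * 5 ^ (k - 1)) * 2 * i * X) * hz'
        rw [val u1 u2 v1 v2 hu hv _ _ _ _ _ _ ht hc, h5]
        congr 2 <;> ring
      have r6 : ((6 : ℕ) : ZMod (5 ^ k)) * 5 ^ (k - 1) = ((1 : ℕ) : ZMod (5 ^ k)) * 5 ^ (k - 1) := by
        push_cast
        linear_combination hz
      have r8 : ((8 : ℕ) : ZMod (5 ^ k)) * 5 ^ (k - 1) = ((3 : ℕ) : ZMod (5 ^ k)) * 5 ^ (k - 1) := by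
        push_cast
        linear_combination hz
      show ∑ i ∈ Finset.range 5, edgeH 0 u1 u2 v1 v2 G x
          (y + ((i : ℕ) : ZMod (5 ^ k)) * 5 ^ (k - 1)) = 0
      simp only [Finset.sum_range_succ, Finset.sum_range_zero, zero_add] at e2 ⊢
      rw [show 2 * 3 = 6 from rfl, show 2 * 4 = 8 from rfl, r6, r8] at e2
      rw [← e2]
      simp only [Nat.reduceMul]
      ring
  -- the reflection in the imaginary axis, in coordinates of vectors
  have hs : ∀ p q p' q' : ℤ, (p ≠ 0 ∨ q ≠ 0) → (p' ≠ 0 ∨ q' ≠ 0) →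
      G (-p) q - G (-p') q' = G p q - G p' q' := by
    intro p q p' q' h h'
    have e := hst.diff h h'
    unfold act at e
    have e1 : G (-1 * p + 0 * q) (0 * p + 1 * q) = G (-p) q := by congr 1 <;> ring
    have e2 : G (-1 * p' + 0 * q') (0 * p' + 1 * q') = G (-p') q' := by congr 1 <;> ring
    rw [e1, e2] at e
    exact e
  have hw : ∀ p q p' q' : ℤ, (p ≠ 0 ∨ q ≠ 0) → (p' ≠ 0 ∨ q' ≠ 0) →
      G q (10 * p) - G q' (10 * p') = G p' q' - G p q := by
    intro p q p' q' h h'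
    have e := hW.diff h h'
    unfold act at e
    have e1 : G (0 * p + -1 * q) (10 * p + 0 * q) = G (-q) (10 * p) := by congr 1 <;> ring
    have e2 : G (0 * p' + -1 * q') (10 * p' + 0 * q') = G (-q') (10 * p') := by congr 1 <;> ring
    rw [e1, e2, hs q (10 * p) q' (10 * p')
      (by rcases h with h | h
          · exact Or.inr (mul_ne_zero (by norm_num) h)
          · exact Or.inl h)
      (by rcases h' with h | h
          · exact Or.inr (mul_ne_zero (by norm_num) h)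
          · exact Or.inl h)] at e
    simp only [Pi.neg_apply] at e
    rw [e]
    ring
  have hsc : ∀ n p q : ℤ, n ≠ 0 → (p ≠ 0 ∨ q ≠ 0) → G (n * p) (n * q) = G p q := fun n p q hn h =>
    hom n p q hn h
  refine ⟨⟨⟨anti 1 0 0 1 (Or.inl one_ne_zero) (Or.inr one_ne_zero), fun p => ?_⟩,
    ⟨anti 1 0 1 2 (Or.inl one_ne_zero) (Or.inl one_ne_zero), fun p => ?_⟩, fun p => ?_⟩, ?_⟩
  · -- f
    obtain ⟨a, b, c, d, h, hc⟩ := exP p
    have n1 : a ≠ 0 ∨ 10 * c ≠ 0 := by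
      have := nz (a := a) (b := b) (c := 10 * c) (d := d) (m := 1) one_ne_zero
        (by linear_combination h) (u := 1) (v := 0) (Or.inl one_ne_zero)
      simpa using this
    have n2 : b ≠ 0 ∨ d ≠ 0 := by
      have := nz (a := a) (b := b) (c := 10 * c) (d := d) (m := 1) one_ne_zero
        (by linear_combination h) (u := 0) (v := 1) (Or.inr one_ne_zero)
      simpa using this
    rw [one_mul]
    have e0 : G a (5 * (2 * c)) = G a (10 * c) := by congr 1; ring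
    refine ⟨?_, ?_⟩
    · show edgeH 0 1 0 0 1 G (ng p).1 (ng p).2 = edgeH 0 1 0 0 1 G p.1 p.2
      have h' : HTy a (-b) (5 * (-(2 * c))) d :=
        Or.inl ⟨by linear_combination h, ⟨-(5 * c), by ring⟩⟩
      rw [vf _ _ _ _ _ h' (co_ng hc), vf _ _ _ _ _ (ht1 h) hc, e0]
      have e := hs a (10 * c) b d n1 n2
      have e1 : G a (5 * -(2 * c)) = G (-a) (10 * c) := by
        have := neg (-a) (10 * c) (by
          rcases n1 with h | h
          · exact Or.inl (neg_ne_zero.2 h)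
          · exact Or.inr h)
        rw [← this]
        congr 1 <;> ring
      rw [e1, e]
    · show edgeH 0 1 0 0 1 G (swH p).1 (swH p).2 = edgeH 0 1 0 0 1 G p.1 p.2
      have h' : HTy d c (5 * (2 * b)) a := ht1 (by linear_combination h)
      rw [vf _ _ _ _ _ h' (co_sw hc), vf _ _ _ _ _ (ht1 h) hc, e0]
      have e := hw b d a (10 * c) n2 n1
      have e1 : G (10 * c) (10 * a) = G c a := hsc 10 c a (by norm_num) (by
        rcases n1 with h | h
        · exact Or.inr h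
        · left
          intro h'
          apply h
          rw [h', mul_zero])
      have e2 : G d (5 * (2 * b)) = G d (10 * b) := by congr 1; ring
      rw [e1] at e
      rw [e2, e]
  · -- l
    obtain ⟨a, b, c, d, h, hc⟩ := exP p
    have n1 : a ≠ 0 ∨ 10 * c ≠ 0 := by
      have := nz (a := a) (b := b) (c := 10 * c) (d := d) (m := 1) one_ne_zero
        (by linear_combination h) (u := 1) (v := 0) (Or.inl one_ne_zero)
      simpa using this
    have n3 : a + b * 2 ≠ 0 ∨ 10 * c + d * 2 ≠ 0 := by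
      have := nz (a := a) (b := b) (c := 10 * c) (d := d) (m := 1) one_ne_zero
        (by linear_combination h) (u := 1) (v := 2) (Or.inl one_ne_zero)
      simpa using this
    rw [one_mul]
    have e0 : G a (5 * (2 * c)) = G a (10 * c) := by congr 1; ring
    have e0' : G (a + b * 2) (5 * (2 * c) + d * 2) = G (a + b * 2) (10 * c + d * 2) := by
      congr 1; ring
    refine ⟨?_, ?_⟩
    · show edgeH 0 1 0 1 2 G (dR 0 p).1 (dR 0 p).2 = edgeH 0 1 0 1 2 G p.1 p.2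
      have h' : HTy a (-a - b) (5 * (-(2 * c))) (5 * (2 * c) + d) :=
        Or.inl ⟨by linear_combination h, ⟨-(5 * c), by ring⟩⟩
      rw [vl _ _ _ _ _ h' (co_dR hc), vl _ _ _ _ _ (ht1 h) hc, e0, e0']
      have e := hs a (10 * c) (a + b * 2) (10 * c + d * 2) n1 n3
      have e1 : G a (5 * -(2 * c)) = G (-a) (10 * c) := by
        have := neg (-a) (10 * c) (by
          rcases n1 with h | h
          · exact Or.inl (neg_ne_zero.2 h)
          · exact Or.inr h)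
        rw [← this]
        congr 1 <;> ring
      have e2 : G (a + (-a - b) * 2) (5 * -(2 * c) + (5 * (2 * c) + d) * 2) =
          G (-(a + b * 2)) (10 * c + d * 2) := by
        congr 1 <;> ring
      rw [e1, e2, e]
    · show edgeH 0 1 0 1 2 G (cOH p).1 (cOH p).2 = edgeH 0 1 0 1 2 G p.1 p.2
      have h' : HTy (2 * d + 10 * c) (-(d + 4 * c)) (5 * (2 * (a + 2 * b))) (-(4 * a + 10 * b)) :=
        Or.inr ⟨by linear_combination 2 * h, ⟨d + 5 * c, by ring⟩, ⟨5 * (a + 2 * b), by ring⟩,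
          ⟨-(2 * a + 5 * b), by ring⟩⟩
      rw [vl _ _ _ _ _ h' (co_cO hc), vl _ _ _ _ _ (ht1 h) hc, e0, e0']
      have e := hw (a + b * 2) (10 * c + d * 2) a (10 * c) n3 n1
      have e1 : G (2 * d + 10 * c) (5 * (2 * (a + 2 * b))) =
          G (10 * c + d * 2) (10 * (a + b * 2)) := by
        congr 1 <;> ring
      have nc : c ≠ 0 ∨ a ≠ 0 := by
        rcases n1 with h | h
        · exact Or.inr h
        · left
          intro h'
          apply h
          rw [h', mul_zero]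
      have e2 : G (2 * d + 10 * c + -(d + 4 * c) * 2)
          (5 * (2 * (a + 2 * b)) + -(4 * a + 10 * b) * 2) = G (10 * c) (10 * a) := by
        rw [hsc 10 c a (by norm_num) nc, ← hsc 2 c a (by norm_num) nc]
        congr 1 <;> ring
      rw [e1, e2, e]
  · -- the relation
    obtain ⟨a, b, c, d, h, hc⟩ := exP p
    have nn : ∀ u v : ℤ, (u ≠ 0 ∨ v ≠ 0) → (a * u + b * v ≠ 0 ∨ 10 * c * u + d * v ≠ 0) := by
      intro u v huv
      exact nz (a := a) (b := b) (c := 10 * c) (d := d) (m := 1) one_ne_zero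
        (by linear_combination h) huv
    have t1 : HTy (-(4 * a + 10 * b)) (a + 2 * b) (5 * (2 * (-(d + 4 * c)))) (2 * d + 10 * c) :=
      Or.inr ⟨by linear_combination 2 * h, ⟨-(2 * a + 5 * b), by ring⟩,
        ⟨-(5 * (d + 4 * c)), by ring⟩, ⟨d + 5 * c, by ring⟩⟩
    have t2 : HTy (3 * a + 10 * b) (-(a + 3 * b)) (5 * (2 * (d + 3 * c))) (-(3 * d + 10 * c)) :=
      Or.inl ⟨by linear_combination h, ⟨5 * (d + 3 * c), by ring⟩⟩
    have t3 : HTy (-(2 * a + 10 * b)) (a + 4 * b) (5 * (2 * (-(d + 2 * c)))) (4 * d + 10 * c) :=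
      Or.inr ⟨by linear_combination 2 * h, ⟨-(a + 5 * b), by ring⟩,
        ⟨-(5 * (d + 2 * c)), by ring⟩, ⟨2 * d + 5 * c, by ring⟩⟩
    have c1 := co_R hc
    have c2 := co_R2 hc
    have c3 := co_R3 hc
    show (edgeH 0 1 0 0 1 G p.1 p.2 - edgeH 0 1 0 1 2 G p.1 p.2) +
      (edgeH 0 1 0 0 1 G (swH (cOH p)).1 (swH (cOH p)).2 -
        edgeH 0 1 0 1 2 G (swH (cOH p)).1 (swH (cOH p)).2) +
      (edgeH 0 1 0 0 1 G (swH (cOH (swH (cOH p)))).1 (swH (cOH (swH (cOH p)))).2 -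
        edgeH 0 1 0 1 2 G (swH (cOH (swH (cOH p)))).1 (swH (cOH (swH (cOH p)))).2) +
      (edgeH 0 1 0 0 1 G (swH (cOH (swH (cOH (swH (cOH p)))))).1
          (swH (cOH (swH (cOH (swH (cOH p)))))).2 -
        edgeH 0 1 0 1 2 G (swH (cOH (swH (cOH (swH (cOH p)))))).1
          (swH (cOH (swH (cOH (swH (cOH p)))))).2) = 0
    rw [vf _ _ _ _ _ (ht1 h) hc, vl _ _ _ _ _ (ht1 h) hc, vf _ _ _ _ _ t1 c1,
      vl _ _ _ _ _ t1 c1, vf _ _ _ _ _ t2 c2, vl _ _ _ _ _ t2 c2, vf _ _ _ _ _ t3 c3,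
      vl _ _ _ _ _ t3 c3]
    have g0 : G (a + b * 2) (5 * (2 * c) + d * 2) = G (a + 2 * b) (2 * d + 10 * c) := by
      congr 1 <;> ring
    have g1 : G (-(4 * a + 10 * b) + (a + 2 * b) * 2)
        (5 * (2 * -(d + 4 * c)) + (2 * d + 10 * c) * 2) = G (a * 1 + b * 3) (10 * c * 1 + d * 3) := by
      rw [← hsc (-2) (a * 1 + b * 3) (10 * c * 1 + d * 3) (by norm_num) (nn 1 3 (by norm_num))]
      congr 1 <;> ring
    have g2 : G (3 * a + 10 * b + -(a + 3 * b) * 2)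
        (5 * (2 * (d + 3 * c)) + -(3 * d + 10 * c) * 2) = G (a + 4 * b) (4 * d + 10 * c) := by
      congr 1 <;> ring
    have g2' : G (-(a + 3 * b)) (-(3 * d + 10 * c)) = G (a * 1 + b * 3) (10 * c * 1 + d * 3) := by
      rw [← hsc (-1) (a * 1 + b * 3) (10 * c * 1 + d * 3) (by norm_num) (nn 1 3 (by norm_num))]
      congr 1 <;> ring
    have g3 : G (-(2 * a + 10 * b) + (a + 4 * b) * 2)
        (5 * (2 * -(d + 2 * c)) + (4 * d + 10 * c) * 2) = G b d := by
      have := hsc (-2) (a * 0 + b * 1) (10 * c * 0 + d * 1) (by norm_num) (nn 0 1 (by norm_num))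
      have e1 : G (a * 0 + b * 1) (10 * c * 0 + d * 1) = G b d := by congr 1 <;> ring
      rw [← e1, ← this]
      congr 1 <;> ring
    rw [g0, g1, g2, g2', g3]
    ring
  · -- injectivity
    intro h0
    have exC : ∀ a b c d : ℤ, HTy a b (5 * c) d → ∃ p : Pt k, Co a b c d p := by
      intro a b c d h
      have hu : ∃ n m : ℤ, a * (n * d) = 1 + 5 * m := by
        rcases h with h | h
        · exact ⟨1, b * c, by linear_combination h.1⟩
        · exact ⟨3, 3 * b * c + 1, by linear_combination 3 * h.1⟩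
      obtain ⟨n, m, hnm⟩ := hu
      have ua := unit_lin (k := k) (a := a) (e := n * d) (t := m) hnm 0
      have ud := unit_lin (k := k) (a := d) (e := n * a) (t := m) (by linear_combination hnm) 0
      rw [mul_zero, add_zero] at ua ud
      refine ⟨((b : ZMod (5 ^ k)) * ((a : ZMod (5 ^ k)))⁻¹,
        (c : ZMod (5 ^ k)) * ((d : ZMod (5 ^ k)))⁻¹), ?_, ?_⟩
      · show (b : ZMod (5 ^ k)) = (b : ZMod (5 ^ k)) * ((a : ZMod (5 ^ k)))⁻¹ * a
        rw [mul_assoc, ZMod.inv_mul_of_unit _ ua, mul_one]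
      · show (c : ZMod (5 ^ k)) = (c : ZMod (5 ^ k)) * ((d : ZMod (5 ^ k)))⁻¹ * d
        rw [mul_assoc, ZMod.inv_mul_of_unit _ ud, mul_one]
    have keyf : ∀ a b c d : ℤ, HTy a b (5 * c) d → G a (5 * c) = G b d := by
      intro a b c d h
      obtain ⟨p, hp⟩ := exC a b c d h
      have e := vf p a b c d h hp
      rw [(h0 p.1 p.2).1] at e
      exact sub_eq_zero.1 e.symm
    have keyl : ∀ a b c d : ℤ, HTy a b (5 * c) d →
        G a (5 * c) = G (a + b * 2) (5 * c + d * 2) := by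
      intro a b c d h
      obtain ⟨p, hp⟩ := exC a b c d h
      have e := vl p a b c d h hp
      rw [(h0 p.1 p.2).2] at e
      exact sub_eq_zero.1 e.symm
    apply hfar ℂ inferInstance G hom
    have z10' := z10 hom keyf
    have z3512' := z3512 hom keyf
    have z2512' := z2512 hom keyf
    have y10 : Z G 0 1 1 0 := z10'.sy
    have y11 := y10.tr (z11 hom keyf)
    have ym11 := y10.tr (zm11 hom keyf)
    have y12 := y10.tr (z12 hom keyl)
    have ym12 := y10.tr (zm12 hom keyl)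
    have y25 := y12.tr z2512'.sy
    have y13 := y25.tr (z2513 hom keyl)
    have y15 := z0115 hom hw keyl
    have y14 := y15.tr (z1514 hom keyf)
    have ym15 := z01m15 hom hw keyl
    have ym14 := ym15.tr (zm1514 hom keyf)
    have ym25 := ym12.tr (zm2512 hom keyf).sy
    have ym13 := ym25.tr (zm2513 hom keyl)
    exact fin18 hom z10' z3512' z2512' y10 y11 ym11 y12 ym12 y13 ym13 y14 ym14 y15 ym15

end Pool.Agent.Helper46.TH
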